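import Pool.Agent.Helper20.NS5.Goals

/-! Packet NS5-CORE (helper20, MP_c578c8_lc). -/

set_option autoImplicit false

namespace Pool.Agent.Helper70.NS5

open Pool.Agent.Helper65.LinSpace Finset
open Pool.Agent.Helper65.Gen3 (pP hs)
open Pool.Agent.Helper20.NS5
open Pool.Agent.Helper78.Avg (num_lt pow_le_num neg_one_pow_eq)

variable {β : Type} {E : ℕ → ℕ → ℕ → ℕ → ℕ → ℕ} {val : ℕ → ℕ → ℕ → ℕ → β} {k : ℕ}

theorem hid_spec {n : ℕ} (h : ∃ s < pP n ^ (2 * k), badN E k n s = 0) :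
    badN E k n (hid E k n) = 0 ∧ hid E k n < pP n ^ (2 * k) := by
  classical
  obtain ⟨h1, h1'⟩ := Nat.find_spec h
  have h2 : ∀ j < Nat.find h, ifz (badN E k n j) 1 0 = 0 := fun j hj => by
    refine ifz_ne (fun h3 => ?_) _ _
    exact Nat.find_min h hj ⟨lt_trans hj h1, h3⟩
  have h3 : hid E k n = Nat.find h := by
    unfold hid
    refine sum_lt_ind h1.le fun i hi => ?_
    by_cases h4 : i < Nat.find h
    · rw [if_pos h4, sum_eq_zero fun j hj => h2 j (by
        have := mem_range.1 hj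
        omega)]
      rfl
    · rw [if_neg h4]
      refine ifz_ne (fun h5 => ?_) _ _
      have h6 := sum_eq_zero_iff.1 h5 _ (mem_range.2 (show Nat.find h < i + 1 by omega))
      rw [h1'] at h6
      exact absurd h6 (by simp [ifz])
  rw [h3]
  exact ⟨h1', h1⟩

theorem pow_sub (k p q : ℕ) :
    ((((p - q) + (q - p)) ^ (2 * k) : ℕ) : ℤ) = ((p : ℤ) - q) ^ (2 * k) := by
  rcases le_total p q with h | h
  · rw [Nat.sub_eq_zero_of_le h, zero_add]
    push_cast [h]
    rw [pow_mul, pow_mul]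
    congr 1
    ring
  · rw [Nat.sub_eq_zero_of_le h, add_zero]
    push_cast [h]
    rfl

section class_

variable (hval : ∀ n e a z z', z < 2 ^ n → z' < 2 ^ n →
  (E n e a z z' = 0 ↔ val n e a z = val n e a z'))

include hval

theorem szN_eq {n e a z : ℕ} (hz : z < 2 ^ n) : szN E n e a z = cs (val n e a) n z := by
  classical
  unfold szN cs
  rw [card_filter]
  refine sum_congr rfl fun z' hz' => ?_
  have h := hval n e a z z' hz (mem_range.1 hz')
  unfold ifz
  by_cases h2 : E n e a z z' = 0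
  · rw [if_pos h2, if_pos (h.1 h2).symm]
  · rw [if_neg h2, if_neg fun h3 => h2 (h.2 h3.symm)]

theorem dev_eq {n e a s z : ℕ} (hz : z < 2 ^ n) :
    (szN E n e a z : ℤ) - 2 * (odN E k n e a s z : ℤ) =
      dev (val n e a) n (fun z => (-1) ^ hs (pP n) (2 * k) s z) z := by
  classical
  unfold szN odN dev
  rw [sum_filter]
  push_cast
  rw [mul_sum, ← sum_sub_distrib]
  refine sum_congr rfl fun z' hz' => ?_
  have h := hval n e a z z' hz (mem_range.1 hz')
  unfold ifz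
  by_cases h2 : E n e a z z' = 0
  · rw [if_pos h2, if_pos h2, if_pos (h.1 h2).symm, neg_one_pow_eq]
    push_cast
    ring
  · rw [if_neg h2, if_neg h2, if_neg fun h3 => h2 (h.2 h3.symm)]
    simp

theorem wN_eq {n e a z : ℕ} (hz : z < 2 ^ n) :
    wN E n e a z = 2 ^ (n - Nat.log 2 (cs (val n e a) n z)) := by
  unfold wN
  rw [szN_eq hval hz]

theorem YN_eq (n e a s : ℕ) : (YN E k n e a s : ℤ) =
    Yv (val n e a) n k (fun z => (-1) ^ hs (pP n) (2 * k) s z) := by
  unfold YN Yv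
  rw [Nat.cast_sum]
  refine sum_congr rfl fun z hz => ?_
  have hz' := mem_range.1 hz
  rw [← dev_eq (k := k) (s := s) hval hz', wN_eq hval hz', Nat.cast_mul, pow_sub]
  push_cast
  rw [← pow_mul, mul_comm (n - Nat.log 2 (cs (val n e a) n z)) (k + 1)]

theorem MN_eq (n e a : ℕ) : MN E n e a = Mv (val n e a) n := by
  unfold MN Mv
  exact sum_congr rfl fun z hz => wN_eq hval (mem_range.1 hz)

theorem vio_eq_zero {n e a s : ℕ} (he : e ≤ n) (ha : Nat.log 2 a ≤ k * n) :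
    vio E k n e a s = 0 ↔ Yv (val n e a) n k (fun z => (-1) ^ hs (pP n) (2 * k) s z) ≤
      (thr k n e a (Mv (val n e a) n) : ℤ) := by
  have h1 : thrN E k n e a = thr k n e a (Mv (val n e a) n) := by
    unfold thrN thr
    rw [min_eq_left ha, min_eq_left he, MN_eq hval]
  unfold vio
  rw [h1, ← YN_eq hval]
  unfold lt01
  split_ifs with h3
  · simp only [false_iff, not_le]
    exact_mod_cast h3
  · simp only [true_iff]
    exact_mod_cast not_lt.1 h3

theorem hid_good (hG : GOOD_stmt) (hk : 0 < k) (n : ℕ) {e a : ℕ} (he : e ≤ n)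
    (ha : a < 2 ^ (k * n + 1)) :
    Yv (val n e a) n k (fun z => (-1) ^ hs (pP n) (2 * k) (hid E k n) z) ≤
      (thr k n e a (Mv (val n e a) n) : ℤ) := by
  have hlog : ∀ a < 2 ^ (k * n + 1), Nat.log 2 a ≤ k * n := by
    intro a ha
    rcases Nat.eq_zero_or_pos a with h | h
    · rw [h]
      simp
    · have := (Nat.log_lt_iff_lt_pow (b := 2) (by norm_num) (by omega)).2 ha
      omega
  obtain ⟨hp1, hp2, -⟩ := nextPrime_spec (m := 2 ^ n + 2) (by positivity)
  have hpos : 0 < 2 ^ n := by positivity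
  obtain ⟨s, hs, hgood⟩ := hG β k n (pP n) hk hp1
    (by unfold pP; omega) (by unfold pP; omega) (fun e a z => val n e a z)
  have h1 : badN E k n s = 0 := by
    unfold badN
    refine sum_eq_zero fun e he => sum_eq_zero fun a ha => ?_
    have he' := mem_range.1 he
    have ha' := mem_range.1 ha
    exact (vio_eq_zero hval (by omega) (hlog a ha')).2 (hgood e he' a ha')
  obtain ⟨h2, _⟩ := hid_spec ⟨s, hs, h1⟩
  unfold badN at h2
  rw [sum_eq_zero_iff] at h2
  have h3 := h2 e (mem_range.2 (by omega))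
  rw [sum_eq_zero_iff] at h3
  exact (vio_eq_zero hval he (hlog a ha)).1 (h3 a (mem_range.2 ha))

end class_

/-- The arithmetic of the main case. -/
theorem arith_main {k n e m : ℕ} (hk : 0 < k) {S : ℤ} {Nn N' Y : ℤ} {M : ℕ} (hN : 0 ≤ Nn)
    (h1 : (2 : ℤ) ^ n * S ^ (2 * k) ≤ Nn ^ (k - 1) * Y)
    (h2 : Y ≤ (((2 * k) ^ (2 * k + 1) * M * (m + 1) ^ 2 * 2 ^ (k * (n + 1) + m + 2 * e + 4) : ℕ) : ℤ))
    (h3 : (M : ℤ) ≤ 2 ^ (n + 1) * N') (hN' : 0 ≤ N') :
    S ^ (2 * k) ≤ (2 * (k : ℤ)) ^ (2 * k + 1) * 2 ^ (2 * k * (e + 4)) * ((m : ℤ) + 1) ^ 2 *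
      2 ^ (k * n + m) * N' * Nn ^ (k - 1) := by
  have hP : (0 : ℤ) ≤ Nn ^ (k - 1) := pow_nonneg hN _
  have h4 : (2 : ℤ) ^ n * S ^ (2 * k) ≤ Nn ^ (k - 1) * ((2 * (k : ℤ)) ^ (2 * k + 1) *
      (2 ^ (n + 1) * N') * ((m : ℤ) + 1) ^ 2 * 2 ^ (k * (n + 1) + m + 2 * e + 4)) := by
    refine h1.trans (mul_le_mul_of_nonneg_left (h2.trans ?_) hP)
    push_cast
    gcongr
  have h5 : (2 : ℤ) ^ (n + 1) * 2 ^ (k * (n + 1) + m + 2 * e + 4) ≤
      2 ^ n * (2 ^ (2 * k * (e + 4)) * 2 ^ (k * n + m)) := by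
    rw [← pow_add, ← pow_add, ← pow_add]
    refine pow_le_pow_right₀ (by norm_num) ?_
    obtain ⟨l, rfl⟩ : ∃ l, k = l + 1 := ⟨k - 1, by omega⟩
    nlinarith [Nat.zero_le (l * e), Nat.zero_le l, Nat.zero_le e]
  have h6 : (2 : ℤ) ^ n * S ^ (2 * k) ≤ 2 ^ n * ((2 * (k : ℤ)) ^ (2 * k + 1) *
      2 ^ (2 * k * (e + 4)) * ((m : ℤ) + 1) ^ 2 * 2 ^ (k * n + m) * N' * Nn ^ (k - 1)) := by
    refine h4.trans ?_
    have h7 : (0 : ℤ) ≤ Nn ^ (k - 1) * ((2 * (k : ℤ)) ^ (2 * k + 1) * N' * ((m : ℤ) + 1) ^ 2) := by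
      positivity
    calc Nn ^ (k - 1) * ((2 * (k : ℤ)) ^ (2 * k + 1) * (2 ^ (n + 1) * N') * ((m : ℤ) + 1) ^ 2 *
          2 ^ (k * (n + 1) + m + 2 * e + 4))
        = Nn ^ (k - 1) * ((2 * (k : ℤ)) ^ (2 * k + 1) * N' * ((m : ℤ) + 1) ^ 2) *
          (2 ^ (n + 1) * 2 ^ (k * (n + 1) + m + 2 * e + 4)) := by ring
      _ ≤ Nn ^ (k - 1) * ((2 * (k : ℤ)) ^ (2 * k + 1) * N' * ((m : ℤ) + 1) ^ 2) *
          (2 ^ n * (2 ^ (2 * k * (e + 4)) * 2 ^ (k * n + m))) :=
          mul_le_mul_of_nonneg_left h5 h7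
      _ = _ := by ring
  exact le_of_mul_le_mul_left h6 (by positivity)

theorem nv_mono (F : ℕ → β) (n : ℕ) (T : Set β) : nv F n T ≤ nv F n Set.univ := by
  unfold nv
  refine card_le_card fun b hb => ?_
  simp only [mem_filter, Set.mem_univ, and_true] at hb ⊢
  exact hb.1

theorem core (hG : GOOD_stmt) (hH : HOL_stmt) (hL : LSH_stmt) : CORE_stmt := by
  classical
  intro β E val k hk hE hval
  refine ⟨Pool.Agent.Helper20.NS5.hL E k, fun n z => hs (pP n) (2 * k) (hid E k n) z, hL E k hE,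
    fun w => Iff.rfl, fun e n a T => ?_⟩
  set F := val n e (num a) with hF
  set g : ℕ → ℤ := fun z => (-1) ^ hs (pP n) (2 * k) (hid E k n) z with hg
  set m := a.length with hm
  have hlog : Nat.log 2 (num a) = m := Pool.Agent.Helper78.Avg.log_num a
  push_cast
  by_cases hc : e ≤ n ∧ m ≤ k * n
  · obtain ⟨he, hmk⟩ := hc
    obtain ⟨h1, h2⟩ := hH β k n F T g hk
    have h3 := hid_good hval hG hk n he (a := num a)
      (lt_of_lt_of_le (num_lt a) (Nat.pow_le_pow_right (by norm_num) (by omega)))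
    refine arith_main hk (Nat.cast_nonneg _) h1 (M := Mv F n) ?_ ?_ (Nat.cast_nonneg _)
    · unfold thr at h3
      rw [hlog] at h3
      exact h3
    · exact_mod_cast h2
  · have hS : |sv F n T g| ≤ 2 ^ n := by
      unfold sv
      refine (abs_sum_le_sum_abs _ _).trans ?_
      have h4 : ∀ z ∈ (range (2 ^ n)).filter (fun z => F z ∈ T), |g z| = 1 := by
        intro z _
        simp only [hg]
        rw [abs_pow, abs_neg, abs_one, one_pow]
      rw [sum_congr rfl h4, sum_const, nsmul_eq_mul, mul_one]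
      have h5 : ((range (2 ^ n)).filter (fun z => F z ∈ T)).card ≤ 2 ^ n :=
        (card_filter_le _ _).trans (le_of_eq (card_range _))
      exact_mod_cast h5
    rcases Nat.eq_zero_or_pos (nv F n T) with h0 | hpos
    · have h5 : sv F n T g = 0 := by
        unfold sv
        rw [filter_eq_empty_iff.2, sum_empty]
        intro z hz hzT
        unfold nv at h0
        rw [card_eq_zero, filter_eq_empty_iff] at h0
        exact h0 (mem_image_of_mem F hz) hzT
      rw [h5, zero_pow (by omega)]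
      positivity
    · have hN' : 1 ≤ nv F n Set.univ := by
        exact hpos.trans_le (nv_mono F n T)
      have hN'z : (1 : ℤ) ≤ (nv F n Set.univ : ℤ) := by exact_mod_cast hN'
      have hNz : (1 : ℤ) ≤ (nv F n T : ℤ) ^ (k - 1) := by
        have : (1 : ℤ) ≤ (nv F n T : ℤ) := by exact_mod_cast hpos
        exact one_le_pow₀ this
      have h6 : sv F n T g ^ (2 * k) ≤ 2 ^ (2 * k * n) := by
        rw [← Even.pow_abs (even_two_mul k)]
        refine (pow_le_pow_left₀ (abs_nonneg _) hS _).trans (le_of_eq ?_)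
        rw [← pow_mul, mul_comm n (2 * k)]
      refine h6.trans ?_
      have h7 : (2 : ℤ) ^ (2 * k * n) ≤ 2 ^ (2 * k * (e + 4)) * 2 ^ (k * n + m) := by
        rw [← pow_add]
        refine pow_le_pow_right₀ (by norm_num) ?_
        rcases not_and_or.1 hc with h | h
        · have h8 : 2 * k * n ≤ 2 * k * (e + 4) := Nat.mul_le_mul_left _ (by omega)
          omega
        · have h8 : 2 * k * n = k * n + k * n := by ring
          omega
      have hk1 : (1 : ℤ) ≤ (2 * (k : ℤ)) ^ (2 * k + 1) := one_le_pow₀ (by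
        have : (1 : ℤ) ≤ (k : ℤ) := by exact_mod_cast hk
        linarith)
      have hm1 : (1 : ℤ) ≤ ((m : ℤ) + 1) ^ 2 := one_le_pow₀ (by
        have : (0 : ℤ) ≤ (m : ℤ) := Nat.cast_nonneg _
        linarith)
      calc (2 : ℤ) ^ (2 * k * n) ≤ 2 ^ (2 * k * (e + 4)) * 2 ^ (k * n + m) := h7
        _ = 1 * 2 ^ (2 * k * (e + 4)) * 1 * 2 ^ (k * n + m) * 1 * 1 := by ring
        _ ≤ (2 * (k : ℤ)) ^ (2 * k + 1) * 2 ^ (2 * k * (e + 4)) * ((m : ℤ) + 1) ^ 2 *
            2 ^ (k * n + m) * (nv F n Set.univ : ℤ) * (nv F n T : ℤ) ^ (k - 1) := by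
          gcongr

end Pool.Agent.Helper70.NS5
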